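import Pool.Agent.K1H97.RP.Base

/-! Second moment of the determinant of Gaussian points under an exponential tilt. -/

set_option autoImplicit false

open MeasureTheory ProbabilityTheory Matrix Set
open scoped BigOperators ENNReal

namespace Pool.Agent.K1H97.RP

open Pool.Agent.K1H9.RP

theorem G1_one : Integrable (fun x : ℝ => x) G1 ∧ ∫ x, x ∂G1 = 0 := by
  unfold G1
  refine ⟨(memLp_id_gaussianReal (μ := 0) (v := 1) 1).integrable (by norm_num), ?_⟩
  exact integral_id_gaussianReal

theorem G1_two : Integrable (fun x : ℝ => x * x) G1 ∧ ∫ x, x * x ∂G1 = 1 := by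
  unfold G1
  have h := (memLp_id_gaussianReal (μ := 0) (v := 1) 2).integrable_sq
  have h2 := variance_id_gaussianReal (μ := 0) (v := 1)
  rw [variance_eq_integral (by fun_prop)] at h2
  simp only [id, integral_id_gaussianReal, sub_zero, NNReal.coe_one] at h2
  constructor
  · refine h.congr (Filter.Eventually.of_forall fun x => ?_)
    simp only [id]
    ring
  · rw [← h2]
    exact integral_congr_ae (Filter.Eventually.of_forall fun x => by
      simp only
      ring)

theorem gv_mom (κ : Type) [Fintype κ] [DecidableEq κ] (a b : κ) :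
    Integrable (fun x : κ → ℝ => x a * x b) (gv κ) ∧
      ∫ x : κ → ℝ, x a * x b ∂(gv κ) = if a = b then 1 else 0 := by
  have hP : IsProbabilityMeasure G1 := by
    unfold G1
    infer_instance
  set g : κ → ℝ → ℝ := fun i t => (if i = a then t else 1) * (if i = b then t else 1) with hg
  have hgi : ∀ i, Integrable (g i) G1 := by
    intro i
    by_cases h1 : i = a
    · by_cases h2 : i = b
      · simp only [hg, h1 ▸ h2, if_pos h2]
        exact G1_two.1
      · simp only [hg, if_pos h1, if_neg h2, mul_one]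
        exact G1_one.1
    · by_cases h2 : i = b
      · simp only [hg, if_neg h1, if_pos h2, one_mul]
        exact G1_one.1
      · simp only [hg, if_neg h1, if_neg h2, mul_one]
        exact integrable_const 1
  have hprod : (fun x : κ → ℝ => x a * x b) = fun x => ∏ i, g i (x i) := by
    funext x
    simp only [hg]
    rw [Finset.prod_mul_distrib]
    simp
  rw [hprod]
  unfold gv
  refine ⟨Integrable.fintype_prod hgi, ?_⟩
  rw [integral_fintype_prod_eq_prod]
  by_cases hab : a = b
  · rw [if_pos hab]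
    apply Finset.prod_eq_one
    intro i _
    by_cases h1 : i = a
    · have h2 : i = b := h1.trans hab
      simp only [hg, if_pos h1, if_pos h2]
      exact G1_two.2
    · have h2 : i ≠ b := fun h => h1 (h.trans hab.symm)
      simp only [hg, if_neg h1, if_neg h2, mul_one]
      simp
  · rw [if_neg hab]
    apply Finset.prod_eq_zero (Finset.mem_univ a)
    simp only [hg, if_neg hab, if_true, mul_one]
    exact G1_one.2

/-- the matrix with first column `v` and other columns `u l` -/
def MM {d : ℕ} (v : Fin (d + 1) → ℝ) (u : Fin d → Fin (d + 1) → ℝ) :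
    Matrix (Fin (d + 1)) (Fin (d + 1)) ℝ := Matrix.of fun i => Fin.cons (v i) (fun l => u l i)

theorem det_MM {d : ℕ} (v : Fin (d + 1) → ℝ) (u : Fin d → Fin (d + 1) → ℝ) :
    (MM v u).det = ∑ σ : Equiv.Perm (Fin (d + 1)),
      (((Equiv.Perm.sign σ : ℤ) : ℝ) * v (σ 0)) * ∏ l : Fin d, u l (σ l.succ) := by
  rw [Matrix.det_apply']
  refine Finset.sum_congr rfl fun σ _ => ?_
  rw [Fin.prod_univ_succ]
  simp only [MM, Matrix.of_apply, Fin.cons_zero, Fin.cons_succ]
  ring

theorem perm_eq {d : ℕ} (σ τ : Equiv.Perm (Fin (d + 1))) :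
    (∏ l : Fin d, (if σ l.succ = τ l.succ then (1 : ℝ) else 0)) = if σ = τ then 1 else 0 := by
  by_cases h : σ = τ
  · subst h
    simp
  · rw [if_neg h]
    by_contra hne
    have h1 : ∀ l : Fin d, σ l.succ = τ l.succ := by
      intro l
      by_contra hl
      exact hne (Finset.prod_eq_zero (Finset.mem_univ l) (if_neg hl))
    apply h
    have h0 : σ 0 = τ 0 := by
      by_contra h0
      obtain ⟨k, hk⟩ := σ.surjective (τ 0)
      have hk0 : k ≠ 0 := fun hk0 => h0 (by rw [← hk, hk0])
      obtain ⟨l, hl⟩ := Fin.exists_succ_eq.2 hk0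
      rw [← hl, h1 l] at hk
      exact (Fin.succ_ne_zero l) (τ.injective hk)
    ext i
    refine congrArg Fin.val ?_
    refine Fin.cases h0 (fun l => h1 l) i

theorem sum_perm {d : ℕ} (f : Fin (d + 1) → ℝ) :
    ∑ σ : Equiv.Perm (Fin (d + 1)), f (σ 0) = (Nat.factorial d : ℝ) * ∑ i, f i := by
  rw [← Equiv.sum_comp (Equiv.Perm.decomposeFin (n := d)).symm (fun σ => f (σ 0)),
    Fintype.sum_prod_type]
  simp only [Equiv.Perm.decomposeFin_symm_apply_zero, Finset.sum_const, Finset.card_univ,
    Fintype.card_perm, Fintype.card_fin, nsmul_eq_mul]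
  rw [Finset.mul_sum]

/-- the untilted second moment -/
theorem second {d : ℕ} (v : Fin (d + 1) → ℝ) :
    ∫ u : Fin d → Fin (d + 1) → ℝ, (MM v u).det ^ 2
      ∂(Measure.pi fun _ : Fin d => gv (Fin (d + 1))) =
      (Nat.factorial d : ℝ) * ∑ i, v i ^ 2 := by
  have h1 : ∀ u : Fin d → Fin (d + 1) → ℝ, (MM v u).det ^ 2 =
      ∑ σ : Equiv.Perm (Fin (d + 1)), ∑ τ : Equiv.Perm (Fin (d + 1)),
        ((((Equiv.Perm.sign σ : ℤ) : ℝ) * v (σ 0)) * (((Equiv.Perm.sign τ : ℤ) : ℝ) * v (τ 0))) *
          ∏ l : Fin d, (u l (σ l.succ) * u l (τ l.succ)) := by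
    intro u
    rw [det_MM, sq, Finset.sum_mul_sum]
    refine Finset.sum_congr rfl fun σ _ => Finset.sum_congr rfl fun τ _ => ?_
    rw [Finset.prod_mul_distrib]
    ring
  simp only [h1]
  have hint : ∀ σ τ : Equiv.Perm (Fin (d + 1)), Integrable
      (fun u : Fin d → Fin (d + 1) → ℝ => ∏ l : Fin d, (u l (σ l.succ) * u l (τ l.succ)))
      (Measure.pi fun _ : Fin d => gv (Fin (d + 1))) := by
    intro σ τ
    exact Integrable.fintype_prod (f := fun (l : Fin d) (x : Fin (d + 1) → ℝ) =>
      x (σ l.succ) * x (τ l.succ)) fun l => (gv_mom _ _ _).1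
  rw [integral_finsetSum _ fun σ _ => integrable_finsetSum _ fun τ _ => (hint σ τ).const_mul _]
  have h2 : ∀ σ : Equiv.Perm (Fin (d + 1)),
      ∫ u : Fin d → Fin (d + 1) → ℝ, ∑ τ : Equiv.Perm (Fin (d + 1)),
        ((((Equiv.Perm.sign σ : ℤ) : ℝ) * v (σ 0)) * (((Equiv.Perm.sign τ : ℤ) : ℝ) * v (τ 0))) *
          ∏ l : Fin d, (u l (σ l.succ) * u l (τ l.succ))
          ∂(Measure.pi fun _ : Fin d => gv (Fin (d + 1))) = v (σ 0) ^ 2 := by
    intro σ
    rw [integral_finsetSum _ fun τ _ => (hint σ τ).const_mul _]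
    simp only [integral_const_mul]
    have h3 : ∀ τ : Equiv.Perm (Fin (d + 1)),
        ∫ u : Fin d → Fin (d + 1) → ℝ, ∏ l : Fin d, (u l (σ l.succ) * u l (τ l.succ))
          ∂(Measure.pi fun _ : Fin d => gv (Fin (d + 1))) = if σ = τ then 1 else 0 := by
      intro τ
      rw [integral_fintype_prod_eq_prod (f := fun (l : Fin d) (x : Fin (d + 1) → ℝ) =>
        x (σ l.succ) * x (τ l.succ)), ← perm_eq]
      exact Finset.prod_congr rfl fun l _ => (gv_mom _ _ _).2
    simp only [h3]
    rw [Finset.sum_eq_single σ]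
    · rw [if_pos rfl, mul_one]
      have h4 : ((Equiv.Perm.sign σ : ℤ) : ℝ) * ((Equiv.Perm.sign σ : ℤ) : ℝ) = 1 := by
        rw [← Int.cast_mul, ← Units.val_mul, Int.units_mul_self]
        simp
      calc _ = (((Equiv.Perm.sign σ : ℤ) : ℝ) * ((Equiv.Perm.sign σ : ℤ) : ℝ)) * v (σ 0) ^ 2 := by
            ring
        _ = _ := by rw [h4, one_mul]
    · intro τ _ hτ
      rw [if_neg (Ne.symm hτ), mul_zero]
    · intro h
      exact absurd (Finset.mem_univ σ) h
  rw [Finset.sum_congr rfl fun σ _ => h2 σ]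
  exact sum_perm fun i => v i ^ 2

/-- transposition of i.i.d. arrays -/
theorem swap_pi (m n : ℕ) :
    (Measure.pi fun _ : Fin n => gv (Fin m)) =
      (gp (Fin m) n).map (Function.swap : (Fin m → Fin n → ℝ) → Fin n → Fin m → ℝ) := by
  have hm : Measurable (Function.swap : (Fin m → Fin n → ℝ) → Fin n → Fin m → ℝ) := by
    refine measurable_pi_lambda _ fun l => measurable_pi_lambda _ fun i => ?_
    exact (measurable_pi_apply l).comp (measurable_pi_apply i)
  refine Measure.pi_eq_generateFrom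
    (C := fun _ : Fin n => (Set.pi univ '' Set.pi univ fun _ : Fin m => {s : Set ℝ | MeasurableSet s}))
    (fun _ => generateFrom_pi) (fun _ => isPiSystem_pi) (fun _ => ?_) ?_
  · refine ⟨fun _ => univ, fun _ => ?_, fun _ => measure_lt_top _ _, Set.iUnion_const _⟩
    refine ⟨fun _ => univ, ?_, Set.pi_univ _⟩
    intro i _
    rw [Set.mem_ofPred_eq]
    exact MeasurableSet.univ
  · intro s hs
    choose t ht hts using hs
    have hs2 : ∀ l, MeasurableSet (s l) := fun l => by
      rw [← hts l]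
      exact MeasurableSet.univ_pi fun i => ht l i (mem_univ i)
    rw [Measure.map_apply hm (MeasurableSet.univ_pi hs2)]
    have h1 : (Function.swap : (Fin m → Fin n → ℝ) → Fin n → Fin m → ℝ) ⁻¹' (Set.pi univ s) =
        Set.pi univ fun i : Fin m => Set.pi univ fun l : Fin n => t l i := by
      ext Y
      simp only [Set.mem_preimage, Set.mem_pi, mem_univ, forall_true_left]
      constructor
      · intro h i l
        have := h l
        rw [← hts l] at this
        exact this i (mem_univ i)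
      · intro h l
        rw [← hts l]
        intro i _
        exact h i l
    have hP1 : IsProbabilityMeasure G1 := by
      unfold G1
      infer_instance
    have hgv : ∀ (k : ℕ) (w : Fin k → Set ℝ), gv (Fin k) (Set.pi univ w) = ∏ i, G1 (w i) := by
      intro k w
      unfold gv
      rw [Measure.pi_pi]
    rw [h1]
    unfold gp
    rw [Measure.pi_pi]
    simp only [hgv]
    rw [Finset.prod_comm]
    refine Finset.prod_congr rfl fun l _ => ?_
    rw [← hts l, hgv]

/-- the exponential tilt in the columns -/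
theorem tilt_cols {ι κ : Type} [Fintype ι] [Fintype κ] [DecidableEq κ] (β : κ → ℝ) :
    ((Measure.pi fun _ : ι => gv κ).withDensity fun x =>
        ENNReal.ofReal (Real.exp (-(∑ i, (β ⬝ᵥ x i) ^ 2) / 2))).map (fun x i => AA β *ᵥ x i) =
      ENNReal.ofReal ((Real.sqrt (1 + ∑ c, β c ^ 2))⁻¹) ^ Fintype.card ι •
        Measure.pi fun _ : ι => gv κ := by
  have h2 : (0 : ℝ) ≤ ∑ c, β c ^ 2 := Finset.sum_nonneg fun c _ => sq_nonneg _
  have hs : 0 < Real.sqrt (1 + ∑ c, β c ^ 2) := Real.sqrt_pos.2 (by linarith)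
  have h := map_tilt_pi (ι := ι) (AA β) (by rw [det_AA]; exact hs.ne')
    ((0 / Real.sqrt (1 + ∑ c, β c ^ 2)) • β) (fun x => (0 + β ⬝ᵥ x) ^ 2) (by
      unfold dotProduct
      fun_prop) _ (norm_id 0 β)
  simp only [zero_div, zero_smul, add_zero, zero_add] at h
  rw [h, det_AA, abs_of_pos hs]
  simp

theorem BM_MM {d : ℕ} (Y : Fin (d + 1) → Fin d → ℝ) :
    BM Y = MM (fun _ => 1) (Function.swap Y) := by
  ext i j
  refine Fin.cases ?_ (fun l => ?_) j
  · simp [BM, MM, hom]
  · simp [BM, MM, hom, Function.swap]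

theorem mul_MM {d : ℕ} (A : Matrix (Fin (d + 1)) (Fin (d + 1)) ℝ) (v : Fin (d + 1) → ℝ)
    (u : Fin d → Fin (d + 1) → ℝ) : A * MM v u = MM (A *ᵥ v) (fun l => A *ᵥ u l) := by
  ext i j
  rw [Matrix.mul_apply]
  refine Fin.cases ?_ (fun l => ?_) j
  · simp [MM, Matrix.mulVec, dotProduct]
  · simp [MM, Matrix.mulVec, dotProduct]

theorem continuous_MM {d : ℕ} (v : Fin (d + 1) → ℝ) :
    Continuous fun u : Fin d → Fin (d + 1) → ℝ => (MM v u).det := by
  simp only [det_MM]
  fun_prop

theorem t_QJ : S_QJ := by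
  intro d
  refine ⟨Nat.factorial d, by positivity, ?_⟩
  intro r c hc
  set β : Fin (d + 1) → ℝ := fun i => r i / c with hβ
  have hB : ∑ i, β i ^ 2 = (∑ i, r i ^ 2) / c ^ 2 := by
    rw [Finset.sum_div]
    exact Finset.sum_congr rfl fun i _ => by rw [hβ, div_pow]
  have h2 : (0 : ℝ) ≤ ∑ c, β c ^ 2 := Finset.sum_nonneg fun c _ => sq_nonneg _
  have hs : 0 < Real.sqrt (1 + ∑ c, β c ^ 2) := Real.sqrt_pos.2 (by linarith)
  have hm : Measurable (Function.swap : (Fin (d + 1) → Fin d → ℝ) → Fin d → Fin (d + 1) → ℝ) := by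
    refine measurable_pi_lambda _ fun l => measurable_pi_lambda _ fun i => ?_
    exact (measurable_pi_apply l).comp (measurable_pi_apply i)
  set s := Real.sqrt (1 + ∑ c, β c ^ 2) with hsdef
  set e : Fin (d + 1) → ℝ := fun _ => 1 with he
  set P := (Measure.pi fun _ : Fin d => gv (Fin (d + 1))) with hP
  set E : (Fin d → Fin (d + 1) → ℝ) → ℝ := fun u =>
    Real.exp (-(∑ l, (β ⬝ᵥ u l) ^ 2) / 2) with hE
  have hEm : Measurable E := by
    rw [hE]
    unfold dotProduct
    fun_prop
  -- rewrite the integral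
  have h3 : ∫ Y : Fin (d + 1) → Fin d → ℝ, (BM Y).det ^ 2 *
      Real.exp (-(∑ l : Fin d, (∑ i, r i * Y i l) ^ 2) / (2 * c ^ 2)) ∂(gp (Fin (d + 1)) d) =
      ∫ u, (MM e u).det ^ 2 * E u ∂P := by
    rw [hP, swap_pi (d + 1) d, integral_map hm.aemeasurable (by
      exact (((continuous_MM e).measurable.pow_const 2).mul hEm).aestronglyMeasurable)]
    refine integral_congr_ae (Filter.Eventually.of_forall fun Y => ?_)
    simp only
    rw [BM_MM, hE]
    simp only
    congr 2
    have h4 : ∀ l, (β ⬝ᵥ Function.swap Y l) ^ 2 = (∑ i, r i * Y i l) ^ 2 / c ^ 2 := by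
      intro l
      rw [← div_pow]
      congr 1
      rw [dotProduct, Finset.sum_div]
      refine Finset.sum_congr rfl fun i _ => ?_
      simp only [hβ, Function.swap]
      ring
    rw [Finset.sum_congr rfl fun l _ => h4 l, ← Finset.sum_div]
    field_simp
  rw [h3]
  -- change of variables
  have hA : (AA β).det = s := det_AA β
  have h5 : ∀ u : Fin d → Fin (d + 1) → ℝ, (MM e u).det ^ 2 =
      (s ^ 2)⁻¹ * (MM (AA β *ᵥ e) (fun l => AA β *ᵥ u l)).det ^ 2 := by
    intro u
    rw [← mul_MM, Matrix.det_mul, hA]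
    field_simp
  have hT : Measurable fun (u : Fin d → Fin (d + 1) → ℝ) (l : Fin d) => AA β *ᵥ u l := by
    refine measurable_pi_lambda _ fun l => ?_
    exact ((LinearMap.continuous_of_finiteDimensional (Matrix.toLin' (AA β))).measurable).comp
      (measurable_pi_apply l)
  have h6 : ∫ u, (MM e u).det ^ 2 * E u ∂P =
      (s ^ 2)⁻¹ * ∫ u, (MM (AA β *ᵥ e) u).det ^ 2
        ∂((P.withDensity fun u => ENNReal.ofReal (E u)).map fun u l => AA β *ᵥ u l) := by
    rw [integral_map (f := fun u => (MM (AA β *ᵥ e) u).det ^ 2) hT.aemeasurable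
        (((continuous_MM _).pow 2).aestronglyMeasurable),
      integral_withDensity_eq_integral_toReal_smul hEm.ennreal_ofReal
        (Filter.Eventually.of_forall fun x => ENNReal.ofReal_lt_top), ← integral_const_mul]
    refine integral_congr_ae (Filter.Eventually.of_forall fun u => ?_)
    simp only
    rw [h5 u, ENNReal.toReal_ofReal (by rw [hE]; positivity), smul_eq_mul]
    ring
  rw [h6, hE, hP, tilt_cols β, integral_smul_measure, second]
  have h7 : ∑ i, (AA β *ᵥ e) i ^ 2 = ((d : ℝ) + 1) + (∑ i, r i) ^ 2 / c ^ 2 := by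
    have := norm_id 0 β e
    simp only [zero_div, zero_smul, add_zero, zero_add] at this
    rw [this]
    have h8 : β ⬝ᵥ e = (∑ i, r i) / c := by
      rw [dotProduct, Finset.sum_div]
      exact Finset.sum_congr rfl fun i _ => by simp [hβ, he]
    rw [h8]
    simp [he, div_pow]
  have h9 : Real.sqrt (1 + (∑ i, r i ^ 2) / c ^ 2) = s := by rw [hsdef, hB]
  rw [h7, ENNReal.toReal_pow, ENNReal.toReal_ofReal (by positivity), Fintype.card_fin, smul_eq_mul,
    ← hsdef, h9]
  simp only [inv_pow]
  rw [pow_add]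
  field_simp

end Pool.Agent.K1H97.RP
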