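import Pool.Agent.K1H97.RP.Base

/-! Substitution `x i = x₀ + Q^{-1/2} Y i`. -/

set_option autoImplicit false

open MeasureTheory ProbabilityTheory Matrix Set
open scoped BigOperators ENNReal

namespace Pool.Agent.K1H97.RP

open Pool.Agent.K1H9.RP

/-- the matrix of the affine map `z ↦ A z + v` in homogeneous coordinates (acting on rows) -/
noncomputable def HM {d : ℕ} (A : Matrix (Fin d) (Fin d) ℝ) (v : Fin d → ℝ) :
    Matrix (Fin (d + 1)) (Fin (d + 1)) ℝ :=
  Matrix.of (Fin.cons (Fin.cons 1 v) fun b => Fin.cons 0 fun c => A c b)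

theorem hom_HM {d : ℕ} (A : Matrix (Fin d) (Fin d) ℝ) (v z : Fin d → ℝ) :
    hom (A *ᵥ z + v) = hom z ᵥ* HM A v := by
  funext j
  unfold hom HM Matrix.vecMul dotProduct
  rw [Fin.sum_univ_succ]
  refine Fin.cases ?_ (fun c => ?_) j
  · simp
  · simp only [Fin.cons_succ, Pi.add_apply, Fin.cons_zero, Matrix.of_apply, one_mul]
    rw [Matrix.mulVec, dotProduct, add_comm]
    congr 1
    exact Finset.sum_congr rfl fun b _ => mul_comm _ _

theorem det_HM {d : ℕ} (A : Matrix (Fin d) (Fin d) ℝ) (v : Fin d → ℝ) :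
    (HM A v).det = A.det := by
  rw [Matrix.det_succ_column_zero, Fin.sum_univ_succ, Finset.sum_eq_zero, add_zero]
  · have h1 : (HM A v).submatrix (Fin.succAbove 0) Fin.succ = Aᵀ := by
      ext i j
      simp [HM]
    rw [h1, Matrix.det_transpose]
    simp [HM]
  · intro i _
    simp [HM]

theorem BM_HM {d : ℕ} (A : Matrix (Fin d) (Fin d) ℝ) (v : Fin d → ℝ)
    (x : Fin (d + 1) → Fin d → ℝ) : BM (fun i => A *ᵥ x i + v) = BM x * HM A v := by
  ext i j
  unfold BM
  rw [Matrix.of_apply, hom_HM]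
  rfl

theorem bary_HM {d : ℕ} (A : Matrix (Fin d) (Fin d) ℝ) (hA : A.det ≠ 0) (v : Fin d → ℝ)
    (x : Fin (d + 1) → Fin d → ℝ) (z : Fin d → ℝ) :
    bary (fun i => A *ᵥ x i + v) (A *ᵥ z + v) = bary x z := by
  unfold bary
  have hu : IsUnit (HM A v).det := by
    rw [det_HM]
    exact hA.isUnit
  rw [BM_HM, hom_HM, Matrix.mul_inv_rev, Matrix.vecMul_vecMul, ← Matrix.mul_assoc,
    Matrix.mul_nonsing_inv _ hu, Matrix.one_mul]

theorem t_TF2 : S_TF2 := by
  intro d j p
  set β : Fin d → ℝ := fun c => p c.succ with hβ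
  set s := Real.sqrt (1 + ∑ c, β c ^ 2) with hs
  have hB : (0 : ℝ) ≤ ∑ c, β c ^ 2 := Finset.sum_nonneg fun c _ => sq_nonneg _
  have hs0 : 0 < s := Real.sqrt_pos.2 (by linarith)
  have hsd : sd p = p 0 / s := rfl
  have hdet : (AA β).det = s := det_AA β
  have hA : (AA β).det ≠ 0 := by
    rw [hdet]
    exact hs0.ne'
  have hsh : ∀ z, shear β (sd p) z = AA β *ᵥ z + sd p • β := fun z => by
    rw [AA_mulVec]
    rfl
  have hq : Measurable fun x : Fin d → ℝ => (p 0 + β ⬝ᵥ x) ^ 2 := by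
    unfold dotProduct
    fun_prop
  have key := map_tilt_pi (ι := Fin (d + 1)) (AA β) hA (sd p • β) (fun x => (p 0 + β ⬝ᵥ x) ^ 2) hq
    (-(sd p) ^ 2) fun x => norm_id (p 0) β x
  have hS : Measurable fun (x : Fin (d + 1) → Fin d → ℝ) i => AA β *ᵥ x i + sd p • β := by
    refine measurable_pi_lambda _ fun i => ?_
    exact ((LinearMap.continuous_of_finiteDimensional (Matrix.toLin' (AA β))).measurable.comp
      (measurable_pi_apply i)).add_const _
  have hinj : Function.Injective fun (x : Fin (d + 1) → Fin d → ℝ) i =>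
      AA β *ᵥ x i + sd p • β := by
    intro x y hxy
    funext i
    have h1 := congrFun hxy i
    simp only [add_left_inj] at h1
    exact (Matrix.mulVec_injective_iff_isUnit.2
      ((Matrix.isUnit_iff_isUnit_det _).2 hA.isUnit)) h1
  have hemb := hS.measurableEmbedding hinj
  have hrow : ∀ (x : Fin (d + 1) → Fin d → ℝ) i, (BM x *ᵥ p) i = p 0 + β ⬝ᵥ x i := by
    intro x i
    change hom (x i) ⬝ᵥ p = _
    rw [dotProduct, Fin.sum_univ_succ]
    unfold hom dotProduct
    simp only [Fin.cons_zero, one_mul, Fin.cons_succ]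
    congr 1
    exact Finset.sum_congr rfl fun b _ => mul_comm _ _
  -- the integral as an integral for the tilted measure
  have hL : ∫ x : Fin (d + 1) → Fin d → ℝ, |(BM x).det| *
      Real.exp (-(∑ i, (BM x *ᵥ p) i ^ 2) / 2) *
        (gv (Fin d)).real {z | pat j (bary x z)} ∂(gp (Fin (d + 1)) d) =
      ∫ x : Fin (d + 1) → Fin d → ℝ, |(BM x).det| * (gv (Fin d)).real {z | pat j (bary x z)}
        ∂((gp (Fin (d + 1)) d).withDensity fun x =>
        ENNReal.ofReal (Real.exp (-(∑ i, (p 0 + β ⬝ᵥ x i) ^ 2) / 2))) := by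
    have hm : Measurable fun x : Fin (d + 1) → Fin d → ℝ =>
        ENNReal.ofReal (Real.exp (-(∑ i, (p 0 + β ⬝ᵥ x i) ^ 2) / 2)) := by
      unfold dotProduct
      fun_prop
    rw [integral_withDensity_eq_integral_toReal_smul hm
      (Filter.Eventually.of_forall fun x => ENNReal.ofReal_lt_top)]
    refine integral_congr_ae (Filter.Eventually.of_forall fun x => ?_)
    simp only [hrow]
    rw [ENNReal.toReal_ofReal (Real.exp_pos _).le, smul_eq_mul]
    ring
  have hG : ∀ x : Fin (d + 1) → Fin d → ℝ,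
      |(BM x).det| * (gv (Fin d)).real {z | pat j (bary x z)} =
      s⁻¹ * (fun Y : Fin (d + 1) → Fin d → ℝ => |(BM Y).det| *
        (gv (Fin d)).real {z | pat j (bary Y (shear β (sd p) z))})
        (fun i => AA β *ᵥ x i + sd p • β) := by
    intro x
    simp only [hsh, bary_HM _ hA]
    rw [BM_HM, Matrix.det_mul, det_HM, hdet, abs_mul, abs_of_pos hs0]
    field_simp
  have key' : Measure.map (fun (x : Fin (d + 1) → Fin d → ℝ) i => AA β *ᵥ x i + sd p • β)
      ((gp (Fin (d + 1)) d).withDensity fun x =>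
        ENNReal.ofReal (Real.exp (-(∑ i, (p 0 + β ⬝ᵥ x i) ^ 2) / 2))) =
      ENNReal.ofReal (|(AA β).det|⁻¹ * Real.exp (-(sd p) ^ 2 / 2)) ^ Fintype.card (Fin (d + 1)) •
        gp (Fin (d + 1)) d := key
  have hI : ∫ x : Fin (d + 1) → Fin d → ℝ, |(BM x).det| *
      (gv (Fin d)).real {z | pat j (bary x z)} ∂((gp (Fin (d + 1)) d).withDensity fun x =>
        ENNReal.ofReal (Real.exp (-(∑ i, (p 0 + β ⬝ᵥ x i) ^ 2) / 2))) =
      s⁻¹ * ∫ Y : Fin (d + 1) → Fin d → ℝ, |(BM Y).det| *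
        (gv (Fin d)).real {z | pat j (bary Y (shear β (sd p) z))}
        ∂(Measure.map (fun (x : Fin (d + 1) → Fin d → ℝ) i => AA β *ᵥ x i + sd p • β)
      ((gp (Fin (d + 1)) d).withDensity fun x =>
        ENNReal.ofReal (Real.exp (-(∑ i, (p 0 + β ⬝ᵥ x i) ^ 2) / 2)))) := by
    rw [hemb.integral_map, ← integral_const_mul]
    exact integral_congr_ae (Filter.Eventually.of_forall hG)
  rw [hL, hI, key', integral_smul_measure, hdet, abs_of_pos hs0, Fintype.card_fin,
    ENNReal.toReal_pow, ENNReal.toReal_ofReal (by positivity), smul_eq_mul, mul_pow,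
    ← Real.exp_nat_mul, ← mul_assoc, ← mul_assoc, ← pow_succ']
  congr 3
  push_cast
  ring

end Pool.Agent.K1H97.RP
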