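import Pool.Agent.K1H9.RP.Stm

/-! Gaussian integrals under rank one changes of the covariance. -/

set_option autoImplicit false

open MeasureTheory ProbabilityTheory Matrix Set
open scoped BigOperators ENNReal

namespace Pool.Agent.K1H97.RP

open Pool.Agent.K1H9.RP

theorem lint_fin_prod {E : Type} [MeasurableSpace E] {n : ℕ} (μ : Fin n → Measure E)
    [∀ i, SigmaFinite (μ i)] (f : Fin n → E → ℝ≥0∞) (hf : ∀ i, Measurable (f i)) :
    ∫⁻ x : Fin n → E, ∏ i, f i (x i) ∂(Measure.pi μ) = ∏ i, ∫⁻ x, f i x ∂(μ i) := by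
  induction n with
  | zero => simp
  | succ n n_ih =>
      calc
        _ = ∫⁻ x : E × (Fin n → E),
            f 0 x.1 * ∏ i : Fin n, f (Fin.succ i) (x.2 i)
            ∂((μ 0).prod (Measure.pi (fun i ↦ μ i.succ))) := by
          rw [← ((measurePreserving_piFinSuccAbove μ 0).symm).lintegral_comp_emb
            (MeasurableEquiv.measurableEmbedding _)]
          simp_rw [MeasurableEquiv.piFinSuccAbove_symm_apply, Fin.insertNthEquiv,
            Fin.prod_univ_succ, Fin.insertNth_zero, Equiv.coe_fn_mk, Fin.cons_succ,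
            Fin.zero_succAbove, cast_eq, Fin.cons_zero]
        _ = (∫⁻ x, f 0 x ∂μ 0)
            * ∏ i : Fin n, ∫⁻ (x : E), f (Fin.succ i) x ∂(μ i.succ) := by
          rw [← n_ih (fun i => μ i.succ) (fun i => f i.succ) (fun i => hf _)]
          exact lintegral_prod_mul (hf 0).aemeasurable (Finset.measurable_prod _ (fun i _ =>
            (hf _).comp (measurable_pi_apply i))).aemeasurable
        _ = ∏ i, ∫⁻ x, f i x ∂(μ i) := by rw [Fin.prod_univ_succ]

theorem lint_prod {E ι : Type} [MeasurableSpace E] [Fintype ι] (μ : ι → Measure E)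
    [∀ i, SigmaFinite (μ i)] (f : ι → E → ℝ≥0∞) (hf : ∀ i, Measurable (f i)) :
    ∫⁻ x : ι → E, ∏ i, f i (x i) ∂(Measure.pi μ) = ∏ i, ∫⁻ x, f i x ∂(μ i) := by
  let e := (Fintype.equivFin ι).symm
  rw [← (measurePreserving_piCongrLeft _ e).lintegral_comp_emb
    (MeasurableEquiv.measurableEmbedding _)]
  simp_rw [← e.prod_comp, MeasurableEquiv.coe_piCongrLeft, Equiv.piCongrLeft_apply_apply]
  exact lint_fin_prod (fun i => μ (e i)) (fun i => f (e i)) (fun i => hf _)

/-- products of measures with densities -/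
theorem pi_wd {E ι : Type} [MeasurableSpace E] [Fintype ι] (μ : Measure E) [SigmaFinite μ]
    {g : E → ℝ≥0∞} (hg : Measurable g) [SigmaFinite (μ.withDensity g)] :
    Measure.pi (fun _ : ι => μ.withDensity g) =
      (Measure.pi fun _ : ι => μ).withDensity (fun y => ∏ i, g (y i)) := by
  apply Measure.pi_eq
  intro s hs
  rw [withDensity_apply _ (MeasurableSet.univ_pi hs), Measure.restrict_pi_pi,
    lint_prod _ _ fun _ => hg]
  apply Finset.prod_congr rfl
  intro i _
  rw [withDensity_apply _ (hs i)]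

/-- products of multiples of a measure -/
theorem pi_smul' {E ι : Type} [MeasurableSpace E] [Fintype ι] (μ : Measure E) [SigmaFinite μ]
    (c : ℝ≥0∞) [SigmaFinite (c • μ)] :
    Measure.pi (fun _ : ι => c • μ) = c ^ Fintype.card ι • Measure.pi fun _ : ι => μ := by
  apply Measure.pi_eq
  intro s hs
  rw [Measure.smul_apply, Measure.pi_pi, smul_eq_mul]
  simp only [Measure.smul_apply, smul_eq_mul, Finset.prod_mul_distrib, Finset.prod_const,
    Finset.card_univ]

instance (κ : Type) [Fintype κ] : IsProbabilityMeasure (gv κ) := by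
  unfold gv G1
  infer_instance

instance (κ : Type) [Fintype κ] (d : ℕ) : IsProbabilityMeasure (gp κ d) := by
  unfold gp
  infer_instance

/-- the density of `gv` -/
noncomputable def dens (κ : Type) [Fintype κ] (x : κ → ℝ) : ℝ :=
  (Real.sqrt (2 * Real.pi))⁻¹ ^ Fintype.card κ * Real.exp (-(∑ i, x i ^ 2) / 2)

theorem gv_eq (κ : Type) [Fintype κ] :
    gv κ = (volume : Measure (κ → ℝ)).withDensity fun x => ENNReal.ofReal (dens κ x) := by
  have h3 : G1 = (volume : Measure ℝ).withDensity (gaussianPDF 0 1) :=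
    gaussianReal_of_var_ne_zero 0 one_ne_zero
  have hsf : SigmaFinite ((volume : Measure ℝ).withDensity (gaussianPDF 0 1)) := by
    rw [← h3]
    unfold G1
    infer_instance
  unfold gv
  rw [h3, pi_wd (ι := κ) volume (measurable_gaussianPDF 0 1), ← volume_pi]
  congr 1
  funext x
  unfold dens gaussianPDF gaussianPDFReal
  rw [← ENNReal.ofReal_prod_of_nonneg fun i _ => by positivity]
  congr 1
  rw [Finset.prod_mul_distrib, Finset.prod_const, ← Real.exp_sum, Finset.card_univ]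
  congr 1
  · simp
  · congr 1
    simp only [sub_zero, NNReal.coe_one, mul_one, neg_div]
    rw [Finset.sum_neg_distrib, Finset.sum_div]

theorem measurable_dens (κ : Type) [Fintype κ] : Measurable (dens κ) := by
  unfold dens
  fun_prop

theorem map_vol {κ : Type} [Fintype κ] [DecidableEq κ] (A : Matrix κ κ ℝ) (hA : A.det ≠ 0)
    (v : κ → ℝ) :
    (volume : Measure (κ → ℝ)).map (fun x => A *ᵥ x + v) =
      ENNReal.ofReal |A.det|⁻¹ • (volume : Measure (κ → ℝ)) := by
  have h1 : (fun x : κ → ℝ => A *ᵥ x + v) = (fun x => x + v) ∘ (Matrix.toLin' A) := by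
    funext x
    simp
  have hm : Measurable (Matrix.toLin' A) :=
    (LinearMap.continuous_of_finiteDimensional _).measurable
  rw [h1, ← Measure.map_map (by fun_prop) hm, Real.map_matrix_volume_pi_eq_smul_volume_pi hA,
    Measure.map_smul, map_add_right_eq_self, abs_inv]

/-- the one point identity -/
theorem map_tilt {κ : Type} [Fintype κ] [DecidableEq κ] (A : Matrix κ κ ℝ) (hA : A.det ≠ 0)
    (v : κ → ℝ) (q : (κ → ℝ) → ℝ) (hq : Measurable q) (c : ℝ)
    (hid : ∀ x, ∑ i, (A *ᵥ x + v) i ^ 2 = ∑ i, x i ^ 2 + q x + c) :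
    ((gv κ).withDensity fun x => ENNReal.ofReal (Real.exp (-(q x) / 2))).map
      (fun x => A *ᵥ x + v) = ENNReal.ofReal (|A.det|⁻¹ * Real.exp (c / 2)) • gv κ := by
  have hS : Measurable fun x : κ → ℝ => A *ᵥ x + v :=
    ((LinearMap.continuous_of_finiteDimensional (Matrix.toLin' A)).measurable).add_const v
  rw [gv_eq, ← withDensity_mul _ (measurable_dens κ).ennreal_ofReal (by fun_prop)]
  have h1 : ((fun x => ENNReal.ofReal (dens κ x)) * fun x => ENNReal.ofReal (Real.exp (-(q x) / 2))) =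
      fun x => ENNReal.ofReal (Real.exp (c / 2)) * ENNReal.ofReal (dens κ (A *ᵥ x + v)) := by
    funext x
    rw [Pi.mul_apply, ← ENNReal.ofReal_mul (by unfold dens; positivity),
      ← ENNReal.ofReal_mul (by positivity)]
    congr 1
    unfold dens
    rw [hid x]
    have h2 : Real.exp (-(∑ i, x i ^ 2 + q x + c) / 2) =
        Real.exp (-(∑ i, x i ^ 2) / 2) * Real.exp (-(q x) / 2) * (Real.exp (c / 2))⁻¹ := by
      rw [← Real.exp_neg, ← Real.exp_add, ← Real.exp_add]
      congr 1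
      ring
    rw [h2]
    have h3 : Real.exp (c / 2) ≠ 0 := (Real.exp_pos _).ne'
    field_simp
  rw [h1]
  have hm' : Measurable fun a => ENNReal.ofReal (dens κ (A *ᵥ a + v)) :=
    ((measurable_dens κ).comp hS).ennreal_ofReal
  ext S hSm
  rw [Measure.map_apply hS hSm, withDensity_apply _ (hS hSm), Measure.smul_apply,
    withDensity_apply _ hSm, lintegral_const_mul _ hm',
    ← setLIntegral_map hSm (measurable_dens κ).ennreal_ofReal hS, map_vol A hA,
    Measure.restrict_smul, lintegral_smul_measure, smul_eq_mul, smul_eq_mul, ← mul_assoc,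
    ← ENNReal.ofReal_mul (by positivity), mul_comm (Real.exp (c / 2))]

/-- the identity for several points -/
theorem map_tilt_pi {ι κ : Type} [Fintype ι] [Fintype κ] [DecidableEq κ] (A : Matrix κ κ ℝ)
    (hA : A.det ≠ 0) (v : κ → ℝ) (q : (κ → ℝ) → ℝ) (hq : Measurable q) (c : ℝ)
    (hid : ∀ x, ∑ i, (A *ᵥ x + v) i ^ 2 = ∑ i, x i ^ 2 + q x + c) :
    ((Measure.pi fun _ : ι => gv κ).withDensity fun x =>
        ENNReal.ofReal (Real.exp (-(∑ i, q (x i)) / 2))).map (fun x i => A *ᵥ x i + v) =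
      ENNReal.ofReal (|A.det|⁻¹ * Real.exp (c / 2)) ^ Fintype.card ι •
        Measure.pi fun _ : ι => gv κ := by
  have hS : Measurable fun x : κ → ℝ => A *ᵥ x + v :=
    ((LinearMap.continuous_of_finiteDimensional (Matrix.toLin' A)).measurable).add_const v
  have hg : Measurable fun x => ENNReal.ofReal (Real.exp (-(q x) / 2)) := by fun_prop
  have h0 : SigmaFinite ((gv κ).withDensity fun x => ENNReal.ofReal (Real.exp (-(q x) / 2))) :=
    SigmaFinite.withDensity_ofReal _
  have h1 : (fun x : ι → κ → ℝ => ENNReal.ofReal (Real.exp (-(∑ i, q (x i)) / 2))) =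
      fun x => ∏ i, ENNReal.ofReal (Real.exp (-(q (x i)) / 2)) := by
    funext x
    rw [← ENNReal.ofReal_prod_of_nonneg fun i _ => (Real.exp_pos _).le, ← Real.exp_sum,
      ← Finset.sum_div, Finset.sum_neg_distrib]
  have h2 : IsFiniteMeasure (ENNReal.ofReal (|A.det|⁻¹ * Real.exp (c / 2)) • gv κ) :=
    Measure.smul_finite _ ENNReal.ofReal_ne_top
  have h3 : SigmaFinite (((gv κ).withDensity fun x => ENNReal.ofReal (Real.exp (-(q x) / 2))).map
      (fun x => A *ᵥ x + v)) := by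
    rw [map_tilt A hA v q hq c hid]
    infer_instance
  rw [h1, ← pi_wd (gv κ) hg, Measure.pi_map_pi fun _ => hS.aemeasurable,
    map_tilt A hA v q hq c hid, pi_smul']

section

set_option linter.unusedSectionVars false

variable {κ : Type} [Fintype κ] [DecidableEq κ]

/-- `((1+|β|²)^{1/2} - 1) / |β|²` -/
noncomputable def kk (β : κ → ℝ) : ℝ := (Real.sqrt (1 + ∑ c, β c ^ 2) - 1) / ∑ c, β c ^ 2

/-- `(I + β βᵀ)^{1/2}` -/
noncomputable def AA (β : κ → ℝ) : Matrix κ κ ℝ :=
  1 + Matrix.replicateCol Unit (kk β • β) * Matrix.replicateRow Unit β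

theorem sum_sq_eq (β : κ → ℝ) : β ⬝ᵥ β = ∑ c, β c ^ 2 := by
  unfold dotProduct
  exact Finset.sum_congr rfl fun c _ => by ring

theorem kk_mul (β : κ → ℝ) : kk β * ∑ c, β c ^ 2 = Real.sqrt (1 + ∑ c, β c ^ 2) - 1 := by
  unfold kk
  by_cases h : ∑ c, β c ^ 2 = 0
  · rw [h]
    simp
  · rw [div_mul_cancel₀ _ h]

theorem det_AA (β : κ → ℝ) : (AA β).det = Real.sqrt (1 + ∑ c, β c ^ 2) := by
  unfold AA
  rw [Matrix.det_one_add_replicateCol_mul_replicateRow, dotProduct_smul, sum_sq_eq, smul_eq_mul,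
    kk_mul]
  ring

theorem AA_mulVec (β x : κ → ℝ) : AA β *ᵥ x = x + (kk β * (β ⬝ᵥ x)) • β := by
  unfold AA
  funext i
  rw [Matrix.add_mulVec, Matrix.one_mulVec, ← Matrix.mulVec_mulVec]
  simp only [Pi.add_apply, Pi.smul_apply, smul_eq_mul, add_right_inj]
  simp [Matrix.mulVec, dotProduct, Matrix.replicateCol, Matrix.replicateRow]
  ring

theorem kk_id (β : κ → ℝ) (hb : ∑ c, β c ^ 2 ≠ 0) : 2 * kk β + kk β ^ 2 * ∑ c, β c ^ 2 = 1 := by
  have h1 := kk_mul β
  have h2 : (0 : ℝ) ≤ ∑ c, β c ^ 2 := Finset.sum_nonneg fun c _ => sq_nonneg _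
  have h3 : Real.sqrt (1 + ∑ c, β c ^ 2) ^ 2 = 1 + ∑ c, β c ^ 2 := Real.sq_sqrt (by linarith)
  set B := ∑ c, β c ^ 2
  set s := Real.sqrt (1 + B)
  have h4 : (2 * kk β + kk β ^ 2 * B) * B = 1 * B := by
    have : (2 * kk β + kk β ^ 2 * B) * B = 2 * (kk β * B) + (kk β * B) ^ 2 := by ring
    rw [this, h1]
    nlinarith
  exact mul_right_cancel₀ hb h4

/-- the norm of the image -/
theorem norm_id (α : ℝ) (β x : κ → ℝ) :
    ∑ i, (AA β *ᵥ x + (α / Real.sqrt (1 + ∑ c, β c ^ 2)) • β) i ^ 2 =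
      ∑ i, x i ^ 2 + (α + β ⬝ᵥ x) ^ 2 + -(α / Real.sqrt (1 + ∑ c, β c ^ 2)) ^ 2 := by
  have h2 : (0 : ℝ) ≤ ∑ c, β c ^ 2 := Finset.sum_nonneg fun c _ => sq_nonneg _
  have h3 : Real.sqrt (1 + ∑ c, β c ^ 2) ^ 2 = 1 + ∑ c, β c ^ 2 := Real.sq_sqrt (by linarith)
  have hs : 0 < Real.sqrt (1 + ∑ c, β c ^ 2) := Real.sqrt_pos.2 (by linarith)
  have hk := kk_mul β
  rw [AA_mulVec]
  set t := β ⬝ᵥ x with ht
  have h5 : ∀ w : ℝ, ∑ i, (x i + w * β i) ^ 2 = ∑ i, x i ^ 2 + 2 * w * t + w ^ 2 * ∑ c, β c ^ 2 := by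
    intro w
    rw [ht, dotProduct, Finset.mul_sum, Finset.mul_sum, ← Finset.sum_add_distrib,
      ← Finset.sum_add_distrib]
    exact Finset.sum_congr rfl fun c _ => by ring
  have h6 : ∀ i, (x + (kk β * t) • β + (α / Real.sqrt (1 + ∑ c, β c ^ 2)) • β) i =
      x i + (kk β * t + α / Real.sqrt (1 + ∑ c, β c ^ 2)) * β i := by
    intro i
    simp only [Pi.add_apply, Pi.smul_apply, smul_eq_mul]
    ring
  simp only [h6]
  rw [h5]
  by_cases hb : ∑ c, β c ^ 2 = 0
  · have hβ : ∀ c, β c = 0 := fun c => by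
      have := (Finset.sum_eq_zero_iff_of_nonneg fun c _ => sq_nonneg (β c)).1 hb c (Finset.mem_univ c)
      exact pow_eq_zero_iff (two_ne_zero) |>.1 this
    have ht0 : t = 0 := by
      rw [ht, dotProduct]
      exact Finset.sum_eq_zero fun c _ => by rw [hβ c, zero_mul]
    rw [hb, ht0]
    simp
  · have hid := kk_id β hb
    set B := ∑ c, β c ^ 2
    set s := Real.sqrt (1 + B)
    have e1 : α = (α / s) * s := by field_simp
    set θ := α / s
    rw [e1]
    have e2 : B = s ^ 2 - 1 := by linarith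
    have e3 : 2 * (kk β * t + θ) * t + (kk β * t + θ) ^ 2 * B =
        (2 * kk β + kk β ^ 2 * B) * t ^ 2 + 2 * θ * t * (1 + kk β * B) + θ ^ 2 * B := by ring
    have e4 : 2 * (kk β * t + θ) * t + (kk β * t + θ) ^ 2 * B = t ^ 2 + 2 * θ * t * s + θ ^ 2 * B := by
      rw [e3, hid, hk]
      ring
    rw [add_assoc, e4]
    have e5 : θ ^ 2 * B = θ ^ 2 * s ^ 2 - θ ^ 2 := by rw [e2]; ring
    rw [e5]
    ring

end

theorem AA_apply {κ : Type} [Fintype κ] [DecidableEq κ] (β : κ → ℝ) (i j : κ) :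
    AA β i j = (if i = j then 1 else 0) + kk β * β i * β j := by
  unfold AA
  rw [Matrix.add_apply, Matrix.one_apply, Matrix.mul_apply]
  simp [Matrix.replicateCol, Matrix.replicateRow]

theorem AA_symm {κ : Type} [Fintype κ] [DecidableEq κ] (β : κ → ℝ) : (AA β)ᵀ = AA β := by
  ext i j
  rw [Matrix.transpose_apply, AA_apply, AA_apply]
  by_cases h : i = j
  · rw [h]
  · rw [if_neg h, if_neg (Ne.symm h)]
    ring

end Pool.Agent.K1H97.RP
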